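import Pool.Agent.Helper57.RBC.Defs
import Pool.Agent.Helper27.HS.TRC
import Pool.Agent.Helper70.HS.IFN

/-! # RBC: the projector on the image of a holomorphic self-adjoint endomorphism field -/

open Complex Metric Set Filter Topology MeasureTheory
open scoped ContDiff ComplexConjugate ComplexOrder Manifold Matrix

namespace Pool.Agent.Helper45.RBC

open Pool.Agent.Helper95.Lin Pool.Agent.Helper16.Abund Pool.Agent.Helper92.Orb
  Pool.Agent.Helper10.SP Pool.Agent.Helper95.RK Pool.Agent.Helper57.HS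
  Pool.Agent.Helper15.HS Pool.Agent.Helper57.RBC
open Pool.Agent.Helper70.HS (Jt form_mat)

universe u v

variable {n : ℕ}

/-! ## Holomorphic functions with real values -/

theorem fderiv_eq_zero_of_im {T : Set (Cn n)} (hT : IsOpen T) {f : Cn n → ℂ}
    (hf : DifferentiableOn ℂ f T) (him : ∀ x ∈ T, (f x).im = 0) {x : Cn n} (hx : x ∈ T) :
    fderiv ℂ f x = 0 := by
  have hd : DifferentiableAt ℂ f x := (hf x hx).differentiableAt (hT.mem_nhds hx)
  have h1 : HasFDerivAt f ((fderiv ℂ f x).restrictScalars ℝ) x :=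
    hd.hasFDerivAt.restrictScalars ℝ
  have h2 : HasFDerivAt (fun z => (f z).im)
      (Complex.imCLM.comp ((fderiv ℂ f x).restrictScalars ℝ)) x :=
    Complex.imCLM.hasFDerivAt.comp x h1
  have h3 : (fun z => (f z).im) =ᶠ[𝓝 x] fun _ => (0 : ℝ) := by
    filter_upwards [hT.mem_nhds hx] with y hy using him y hy
  have h4 : Complex.imCLM.comp ((fderiv ℂ f x).restrictScalars ℝ) = 0 := by
    have h5 := h2.congr_of_eventuallyEq h3.symm
    exact h5.unique (hasFDerivAt_const (0 : ℝ) x)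
  have h6 : ∀ v, (fderiv ℂ f x v).im = 0 := fun v => by
    have := congrArg (fun L : Cn n →L[ℝ] ℝ => L v) h4
    simpa using this
  ext v
  have h7 := h6 v
  have h8 := h6 (I • v)
  rw [map_smul, smul_eq_mul, Complex.I_mul_im] at h8
  exact Complex.ext h8 h7

theorem const_of_im {T : Set (Cn n)} {G : Type u} [Group G] {R : G → Cn n → Cn n → Prop}
    (hE : Et T R) {f : Cn n → ℂ} (hf : DifferentiableOn ℂ f T) (him : ∀ x ∈ T, (f x).im = 0)
    (hR : ∀ γ x y, R γ x y → f x = f y) {x₀ : Cn n} (hx₀ : x₀ ∈ T) : ∀ x ∈ T, f x = f x₀ := by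
  have hT := hE.isOpen
  have hloc : ∀ x ∈ T, ∀ᶠ y in 𝓝 x, f y = f x := by
    intro x hx
    obtain ⟨r, hr, hb⟩ := Metric.isOpen_iff.1 hT x hx
    filter_upwards [Metric.ball_mem_nhds x hr] with y hy
    refine (convex_ball x r).is_const_of_fderivWithin_eq_zero (𝕜 := ℂ) (hf.mono hb)
      (fun z hz => ?_) hy (Metric.mem_ball_self hr)
    rw [fderivWithin_of_isOpen Metric.isOpen_ball hz]
    exact fderiv_eq_zero_of_im hT hf him (hb hz)
  have h := hE.conn {x ∈ T | f x = f x₀} (fun x hx => hx.1) ?_ ?_ ?_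
  · rcases h with h | h
    · exact absurd (show x₀ ∈ {x ∈ T | f x = f x₀} from ⟨hx₀, rfl⟩) (by rw [h]; exact id)
    · intro x hx
      have : x ∈ {x ∈ T | f x = f x₀} := by rw [h]; exact hx
      exact this.2
  · rw [isOpen_iff_mem_nhds]
    rintro x ⟨hx, hfx⟩
    filter_upwards [hT.mem_nhds hx, hloc x hx] with y hy h1
    exact ⟨hy, h1.trans hfx⟩
  · rw [isOpen_iff_mem_nhds]
    rintro x ⟨hx, hfx⟩
    filter_upwards [hT.mem_nhds hx, hloc x hx] with y hy h1
    refine ⟨hy, fun h2 => hfx ⟨hx, ?_⟩⟩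
    rw [← h1]
    exact h2.2
  · intro γ x y hxy
    obtain ⟨hx, hy⟩ := hE.mem γ x y hxy
    have := hR γ x y hxy
    constructor
    · rintro ⟨-, h⟩
      exact ⟨hy, this ▸ h⟩
    · rintro ⟨-, h⟩
      exact ⟨hx, this.trans h⟩

/-! ## Polynomials of a matrix -/

theorem conj_pow' {J J' B : Matrix (Fin n) (Fin n) ℂ} (h1 : J * J' = 1) (h2 : J' * J = 1)
    (k : ℕ) : (J * B * J') ^ k = J * B ^ k * J' := by
  induction k with
  | zero => rw [pow_zero, pow_zero, Matrix.mul_one, h1]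
  | succ k ih =>
    rw [pow_succ, ih, pow_succ]
    calc J * B ^ k * J' * (J * B * J') = J * B ^ k * (J' * J) * B * J' := by
          simp only [Matrix.mul_assoc]
      _ = _ := by rw [h2, Matrix.mul_one]; simp only [Matrix.mul_assoc]

theorem aeval_conj' {J J' B : Matrix (Fin n) (Fin n) ℂ} (h1 : J * J' = 1) (h2 : J' * J = 1)
    (p : Polynomial ℝ) : Polynomial.aeval (J * B * J') p = J * Polynomial.aeval B p * J' := by
  rw [Polynomial.aeval_eq_sum_range, Polynomial.aeval_eq_sum_range, Matrix.mul_sum,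
    Matrix.sum_mul]
  refine Finset.sum_congr rfl fun k _ => ?_
  rw [conj_pow' h1 h2, Matrix.mul_smul, Matrix.smul_mul]

theorem aeval_diag (μ : Fin n → ℝ) (p : Polynomial ℝ) :
    Polynomial.aeval (Matrix.diagonal fun i => (μ i : ℂ)) p =
      Matrix.diagonal fun i => ((p.eval (μ i) : ℝ) : ℂ) := by
  have h : ∀ k : ℕ, (Matrix.diagonal fun i => (μ i : ℂ)) ^ k =
      Matrix.diagonal fun i => ((μ i ^ k : ℝ) : ℂ) := by
    intro k
    rw [Matrix.diagonal_pow]
    congr 1
    funext i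
    simp
  rw [Polynomial.aeval_eq_sum_range]
  ext i j
  rw [Matrix.sum_apply]
  by_cases hij : i = j
  · subst hij
    rw [Matrix.diagonal_apply_eq, Polynomial.eval_eq_sum_range]
    push_cast
    refine Finset.sum_congr rfl fun k _ => ?_
    rw [Matrix.smul_apply, h, Matrix.diagonal_apply_eq]
    simp [Complex.real_smul]
  · rw [Matrix.diagonal_apply_ne _ hij]
    refine Finset.sum_eq_zero fun k _ => ?_
    rw [Matrix.smul_apply, h, Matrix.diagonal_apply_ne _ hij, smul_zero]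

theorem diff_pow {T : Set (Cn n)} {A : Cn n → Matrix (Fin n) (Fin n) ℂ}
    (hA : ∀ i j, DifferentiableOn ℂ (fun x => A x i j) T) (k : ℕ) :
    ∀ i j, DifferentiableOn ℂ (fun x => (A x ^ k) i j) T := by
  induction k with
  | zero =>
    intro i j
    simp only [pow_zero]
    exact differentiableOn_const _
  | succ k ih =>
    intro i j
    simp only [pow_succ, Matrix.mul_apply]
    exact DifferentiableOn.fun_sum fun l _ => (ih i l).mul (hA l j)

theorem diff_aeval {T : Set (Cn n)} {A : Cn n → Matrix (Fin n) (Fin n) ℂ}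
    (hA : ∀ i j, DifferentiableOn ℂ (fun x => A x i j) T) (p : Polynomial ℝ) :
    ∀ i j, DifferentiableOn ℂ (fun x => (Polynomial.aeval (A x) p) i j) T := by
  intro i j
  simp only [Polynomial.aeval_eq_sum_range, Matrix.sum_apply, Matrix.smul_apply]
  exact DifferentiableOn.fun_sum fun k _ => (diff_pow hA k i j).fun_const_smul _

theorem diff_prod {T : Set (Cn n)} {ι : Type} (s : Finset ι) {f : ι → Cn n → ℂ}
    (hf : ∀ i, DifferentiableOn ℂ (f i) T) : DifferentiableOn ℂ (fun x => ∏ i ∈ s, f i x) T := by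
  classical
  induction s using Finset.induction_on with
  | empty => simpa using differentiableOn_const _
  | insert a s ha ih =>
    simp only [Finset.prod_insert ha]
    exact (hf a).mul ih

theorem diff_det {T : Set (Cn n)} {A : Cn n → Matrix (Fin n) (Fin n) ℂ}
    (hA : ∀ i j, DifferentiableOn ℂ (fun x => A x i j) T) :
    DifferentiableOn ℂ (fun x => (A x).det) T := by
  simp only [Matrix.det_apply']
  refine DifferentiableOn.fun_sum fun σ _ => DifferentiableOn.const_mul ?_ _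
  exact diff_prod Finset.univ fun i => hA _ _

theorem diff_trace {T : Set (Cn n)} {A : Cn n → Matrix (Fin n) (Fin n) ℂ}
    (hA : ∀ i j, DifferentiableOn ℂ (fun x => A x i j) T) :
    DifferentiableOn ℂ (fun x => Matrix.trace (A x)) T := by
  simp only [Matrix.trace, Matrix.diag_apply]
  exact DifferentiableOn.fun_sum fun i _ => hA i i

/-! ## Diagonalisation -/

theorem diag_A {h A : Matrix (Fin n) (Fin n) ℂ} (hh : h.PosDef) (hA : (A * h).PosSemidef) :
    ∃ (M M' : Matrix (Fin n) (Fin n) ℂ) (μ : Fin n → ℝ), M * M' = 1 ∧ M' * M = 1 ∧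
      h = M * Mᴴ ∧ A = M * Matrix.diagonal (fun i => (μ i : ℂ)) * M' ∧ ∀ i, 0 ≤ μ i := by
  obtain ⟨M, M', μ, h1, h2, h3, h4⟩ := Pool.Agent.Helper27.HS.trc_simul h (A * h) hh
    hA.isHermitian
  refine ⟨M, M', μ, h1, h2, h3, ?_, fun i => ?_⟩
  · have h5 : (M' : Matrix (Fin n) (Fin n) ℂ)ᴴ * M' = h⁻¹ := by
      refine (Matrix.inv_eq_right_inv ?_).symm
      rw [h3]
      calc M * Mᴴ * (M'ᴴ * M') = M * (M' * M)ᴴ * M' := by
            rw [Matrix.conjTranspose_mul]; simp only [Matrix.mul_assoc]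
        _ = 1 := by rw [h2, Matrix.conjTranspose_one, Matrix.mul_one, h1]
    have hu : IsUnit h.det := hh.isUnit.map Matrix.detMonoidHom
    calc A = A * h * h⁻¹ := by rw [Matrix.mul_assoc, Matrix.mul_nonsing_inv _ hu, Matrix.mul_one]
      _ = M * Matrix.diagonal (fun i => (μ i : ℂ)) * Mᴴ * (M'ᴴ * M') := by rw [h4, h5]
      _ = M * Matrix.diagonal (fun i => (μ i : ℂ)) * (M' * M)ᴴ * M' := by
          rw [Matrix.conjTranspose_mul]; simp only [Matrix.mul_assoc]
      _ = _ := by rw [h2, Matrix.conjTranspose_one, Matrix.mul_one]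
  · refine Pool.Agent.Helper27.HS.trc_posSemidef M M' μ h2 ?_ i
    rw [← h4]
    exact hA

theorem det_conj_diag {M M' : Matrix (Fin n) (Fin n) ℂ} (h1 : M * M' = 1) (d : Fin n → ℂ) :
    (M * Matrix.diagonal d * M').det = ∏ i, d i := by
  have h2 : M.det * M'.det = 1 := by rw [← Matrix.det_mul, h1, Matrix.det_one]
  rw [Matrix.det_mul, Matrix.det_mul, Matrix.det_diagonal]
  calc M.det * (∏ i, d i) * M'.det = (M.det * M'.det) * ∏ i, d i := by ring
    _ = _ := by rw [h2, one_mul]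

theorem trace_conj_diag {M M' : Matrix (Fin n) (Fin n) ℂ} (h2 : M' * M = 1) (d : Fin n → ℂ) :
    (M * Matrix.diagonal d * M').trace = ∑ i, d i := by
  rw [Matrix.trace_mul_comm, ← Matrix.mul_assoc, h2, Matrix.one_mul, Matrix.trace_diagonal]

/-- the form of `hermi`-invariance from matrices -/
theorem mat_form (A B : Matrix (Fin n) (Fin n) ℂ) (L : Cn n →L[ℂ] Cn n)
    (h : A = Jt L * B * (Jt L)ᴴ) (u v : Cn n) : hermi B (L u) (L v) = hermi A u v := by
  have hL : ∀ (w : Cn n) (p : Fin n), L w p = ∑ i, w i * Jt L i p := by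
    intro w p
    have h1 : w = ∑ i, w i • (Pi.single i (1 : ℂ) : Cn n) := by
      funext j
      simp [Finset.sum_apply, Pi.single_apply]
    conv_lhs => rw [h1]
    rw [map_sum, Finset.sum_apply]
    refine Finset.sum_congr rfl fun i _ => ?_
    rw [map_smul]
    rfl
  rw [h]
  unfold hermi
  have h2 : ∀ i j, (Jt L * B * (Jt L)ᴴ) i j = ∑ p, ∑ q, Jt L i p * B p q * conj (Jt L j q) := by
    intro i j
    rw [Matrix.mul_assoc, Matrix.mul_apply]
    refine Finset.sum_congr rfl fun p _ => ?_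
    rw [Matrix.mul_apply, Finset.mul_sum]
    refine Finset.sum_congr rfl fun q _ => ?_
    rw [Matrix.conjTranspose_apply, Complex.star_def]
    ring
  simp only [hL, h2, map_sum, map_mul, Finset.sum_mul, Finset.mul_sum]
  calc _ = ∑ p, ∑ q, ∑ i, ∑ j, B p q * (u i * Jt L i p) * (conj (v j) * conj (Jt L j q)) := by
        refine Finset.sum_congr rfl fun p _ => Finset.sum_congr rfl fun q _ => ?_
        rw [Finset.sum_comm]
    _ = ∑ i, ∑ j, ∑ p, ∑ q, B p q * (u i * Jt L i p) * (conj (v j) * conj (Jt L j q)) := by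
        rw [show (∑ p, ∑ q, ∑ i, ∑ j, B p q * (u i * Jt L i p) * (conj (v j) * conj (Jt L j q))) =
          ∑ p, ∑ i, ∑ q, ∑ j, B p q * (u i * Jt L i p) * (conj (v j) * conj (Jt L j q)) from
          Finset.sum_congr rfl fun p _ => Finset.sum_comm]
        rw [Finset.sum_comm]
        refine Finset.sum_congr rfl fun i _ => ?_
        rw [show (∑ p, ∑ q, ∑ j, B p q * (u i * Jt L i p) * (conj (v j) * conj (Jt L j q))) =
          ∑ p, ∑ j, ∑ q, B p q * (u i * Jt L i p) * (conj (v j) * conj (Jt L j q)) from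
          Finset.sum_congr rfl fun p _ => Finset.sum_comm]
        rw [Finset.sum_comm]
    _ = _ := by
        refine Finset.sum_congr rfl fun i _ => Finset.sum_congr rfl fun j _ => ?_
        refine Finset.sum_congr rfl fun p _ => Finset.sum_congr rfl fun q _ => ?_
        ring

/-! ## The projector -/

/-- `e t = 0` for `t = 0` and `1` otherwise. -/
noncomputable def ev (t : ℝ) : ℝ := if t = 0 then 0 else 1

theorem ev_sq (t : ℝ) : ev t * ev t = ev t := by
  unfold ev
  split_ifs <;> norm_num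

theorem ev_mul (t : ℝ) : ev t * t = t := by
  unfold ev
  split_ifs with h
  · rw [h, mul_zero]
  · rw [one_mul]

/-- CHP. The projector on the image of a holomorphic endomorphism field `A` with `A h` Hermitian, positive
semidefinite and invariant. -/
def S_CHP : Prop := ∀ {n : ℕ} (T : Set (Cn n)) {G : Type u} [Group G]
  (R : G → Cn n → Cn n → Prop), Et T R → ∀ h A : Cn n → Matrix (Fin n) (Fin n) ℂ,
  HerT T R h → (∀ i j, DifferentiableOn ℂ (fun x => A x i j) T) →
  (∀ x ∈ T, (A x * h x).PosSemidef) → (InvH R fun x => A x * h x) →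
  ∃ (r : ℕ) (P : Cn n → Matrix (Fin n) (Fin n) ℂ), r ≤ n ∧
    (∀ i j, DifferentiableOn ℂ (fun x => P x i j) T) ∧ (∀ x ∈ T, P x * P x = P x) ∧
    (∀ x ∈ T, P x * h x = h x * (P x)ᴴ) ∧ (∀ x ∈ T, Matrix.trace (P x) = r) ∧
    (InvH R fun x => P x * h x) ∧ (∀ x ∈ T, P x * A x = A x ∧ A x * P x = A x) ∧
    (∃ α : ℝ, 0 < α ∧ ∀ x ∈ T, α ≤ (A x + (1 - P x)).det.re) ∧
    (∃ c : ℝ, 0 < c ∧ ∀ x ∈ T, (A x * h x - (c : ℂ) • (P x * h x)).PosSemidef) ∧
    ∃ p : Polynomial ℝ, ∀ x, P x = Polynomial.aeval (A x) p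

theorem chp (hIFN : S_IFN.{u}) : S_CHP.{u} := by
  intro n T G _ R hE h A hh hA hpsd hinv
  have hT := hE.isOpen
  have hu : ∀ x ∈ T, IsUnit (h x).det := fun x hx =>
    (hh.posDef x hx).isUnit.map Matrix.detMonoidHom
  -- conjugation along arrows
  have hconj : ∀ γ x y, R γ x y → ∃ J J' : Matrix (Fin n) (Fin n) ℂ, J * J' = 1 ∧ J' * J = 1 ∧
      A x = J * A y * J' := by
    intro γ x y hxy
    obtain ⟨hx, hy⟩ := hE.mem γ x y hxy
    obtain ⟨J, hJ, -, -, h4⟩ := (hIFN T R hE h (fun x => A x * h x) hh hinv).1 γ x y hxy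
    have hJu : IsUnit J.det := isUnit_iff_ne_zero.2 hJ
    refine ⟨J, J⁻¹, Matrix.mul_nonsing_inv _ hJu, Matrix.nonsing_inv_mul _ hJu, ?_⟩
    have h5 : A x * h x * (h x)⁻¹ = A x := by
      rw [Matrix.mul_assoc, Matrix.mul_nonsing_inv _ (hu x hx), Matrix.mul_one]
    have h6 : A y * h y * (h y)⁻¹ = A y := by
      rw [Matrix.mul_assoc, Matrix.mul_nonsing_inv _ (hu y hy), Matrix.mul_one]
    rw [h5, h6] at h4
    exact h4
  obtain ⟨x₀, hx₀⟩ := hE.nonempty
  obtain ⟨M₀, M₀', μ₀, a1, a2, a3, a4, a5⟩ := diag_A (hh.posDef x₀ hx₀) (hpsd x₀ hx₀)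
  -- the eigenvalues are constant
  have hdet : ∀ (t : ℝ), ∀ x ∈ T, ((t : ℂ) • (1 : Matrix (Fin n) (Fin n) ℂ) - A x).det =
      ((t : ℂ) • (1 : Matrix (Fin n) (Fin n) ℂ) - A x₀).det := by
    intro t
    refine const_of_im hE (f := fun x => ((t : ℂ) • (1 : Matrix (Fin n) (Fin n) ℂ) - A x).det)
      ?_ ?_ ?_ hx₀
    · refine diff_det fun i j => ?_
      simp only [Matrix.sub_apply]
      exact (differentiableOn_const _).sub (hA i j)
    · intro x hx
      obtain ⟨M, M', μ, b1, b2, b3, b4, b5⟩ := diag_A (hh.posDef x hx) (hpsd x hx)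
      have h1 : (t : ℂ) • (1 : Matrix (Fin n) (Fin n) ℂ) - A x =
          M * Matrix.diagonal (fun i => (((t - μ i : ℝ)) : ℂ)) * M' := by
        have h2 : (Matrix.diagonal fun i => (((t - μ i : ℝ)) : ℂ)) =
            (t : ℂ) • (1 : Matrix (Fin n) (Fin n) ℂ) - Matrix.diagonal fun i => (μ i : ℂ) := by
          ext i j
          by_cases hij : i = j
          · subst hij; simp
          · simp [Matrix.diagonal_apply_ne _ hij, Matrix.one_apply_ne hij]
        rw [h2, Matrix.mul_sub, Matrix.sub_mul, Matrix.mul_smul, Matrix.smul_mul,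
          Matrix.mul_one, b1, ← b4]
      show (((t : ℂ) • (1 : Matrix (Fin n) (Fin n) ℂ) - A x).det).im = 0
      rw [h1, det_conj_diag b1, ← Complex.ofReal_prod, Complex.ofReal_im]
    · intro γ x y hxy
      obtain ⟨J, J', c1, c2, c3⟩ := hconj γ x y hxy
      show ((t : ℂ) • (1 : Matrix (Fin n) (Fin n) ℂ) - A x).det =
        ((t : ℂ) • (1 : Matrix (Fin n) (Fin n) ℂ) - A y).det
      have h1 : (t : ℂ) • (1 : Matrix (Fin n) (Fin n) ℂ) - A x =
          J * ((t : ℂ) • (1 : Matrix (Fin n) (Fin n) ℂ) - A y) * J' := by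
        rw [Matrix.mul_sub, Matrix.sub_mul, Matrix.mul_smul, Matrix.smul_mul,
          Matrix.mul_one, c1, ← c3]
      have h2 : J.det * J'.det = 1 := by rw [← Matrix.det_mul, c1, Matrix.det_one]
      rw [h1, Matrix.det_mul, Matrix.det_mul]
      calc J.det * ((t : ℂ) • (1 : Matrix (Fin n) (Fin n) ℂ) - A y).det * J'.det =
          (J.det * J'.det) * ((t : ℂ) • (1 : Matrix (Fin n) (Fin n) ℂ) - A y).det := by ring
        _ = _ := by rw [h2, one_mul]
  have hspec : ∀ x ∈ T, ∀ (M M' : Matrix (Fin n) (Fin n) ℂ) (μ : Fin n → ℝ), M * M' = 1 →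
      A x = M * Matrix.diagonal (fun i => (μ i : ℂ)) * M' → ∀ i, ∃ k, μ i = μ₀ k := by
    intro x hx M M' μ b1 b4 i
    have h1 : ∀ (N N' : Matrix (Fin n) (Fin n) ℂ) (ν : Fin n → ℝ) (t : ℝ), N * N' = 1 →
        ((t : ℂ) • (1 : Matrix (Fin n) (Fin n) ℂ) -
          N * Matrix.diagonal (fun i => (ν i : ℂ)) * N').det = ∏ i, ((t : ℂ) - (ν i : ℂ)) := by
      intro N N' ν t h
      have h2 : (Matrix.diagonal fun i => ((t : ℂ) - (ν i : ℂ))) =
          (t : ℂ) • (1 : Matrix (Fin n) (Fin n) ℂ) - Matrix.diagonal fun i => (ν i : ℂ) := by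
        ext i j
        by_cases hij : i = j
        · subst hij; simp
        · simp [Matrix.diagonal_apply_ne _ hij, Matrix.one_apply_ne hij]
      rw [← det_conj_diag h, h2, Matrix.mul_sub, Matrix.sub_mul, Matrix.mul_smul,
        Matrix.smul_mul, Matrix.mul_one, h]
    have h3 := hdet (μ i) x hx
    rw [b4, a4, h1 M M' μ (μ i) b1, h1 M₀ M₀' μ₀ (μ i) a1] at h3
    have h4 : ∏ k, (((μ i : ℝ) : ℂ) - ((μ k : ℝ) : ℂ)) = 0 :=
      Finset.prod_eq_zero (Finset.mem_univ i) (sub_self _)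
    rw [h4] at h3
    obtain ⟨k, -, hk⟩ := Finset.prod_eq_zero_iff.1 h3.symm
    refine ⟨k, ?_⟩
    exact_mod_cast sub_eq_zero.1 hk
  -- the polynomial
  let s : Finset ℝ := insert 0 (Finset.univ.image μ₀)
  let p : Polynomial ℝ := Lagrange.interpolate s id ev
  have hp : ∀ t ∈ s, p.eval t = ev t := by
    intro t ht
    exact Lagrange.eval_interpolate_at_node (s := s) (v := id) ev
      (Function.injective_id.injOn) ht
  -- the positive lower bound of the nonzero eigenvalues
  obtain ⟨c, hc, hc1, hcb⟩ : ∃ c : ℝ, 0 < c ∧ c ≤ 1 ∧ ∀ k, μ₀ k ≠ 0 → c ≤ μ₀ k := by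
    let w : Fin n → ℝ := fun k => if μ₀ k = 0 then 1 else μ₀ k
    have hw : ∀ k, 0 < w k := by
      intro k
      simp only [w]
      split_ifs with h0
      · exact one_pos
      · exact lt_of_le_of_ne (a5 k) (Ne.symm h0)
    obtain ⟨c, hc, hcw⟩ : ∃ c : ℝ, 0 < c ∧ ∀ k, c ≤ w k := by
      rcases isEmpty_or_nonempty (Fin n) with he | hne
      · exact ⟨1, one_pos, fun k => (he.false k).elim⟩
      · obtain ⟨k, -, hk⟩ := Finset.exists_min_image Finset.univ w Finset.univ_nonempty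
        exact ⟨w k, hw k, fun j => hk j (Finset.mem_univ j)⟩
    refine ⟨min c 1, lt_min hc one_pos, min_le_right _ _, fun k hk => ?_⟩
    have := hcw k
    simp only [w, if_neg hk] at this
    exact (min_le_left _ _).trans this
  let P : Cn n → Matrix (Fin n) (Fin n) ℂ := fun x => Polynomial.aeval (A x) p
  have hPdiag : ∀ x ∈ T, ∀ (M M' : Matrix (Fin n) (Fin n) ℂ) (μ : Fin n → ℝ), M * M' = 1 →
      M' * M = 1 → A x = M * Matrix.diagonal (fun i => (μ i : ℂ)) * M' →
      P x = M * Matrix.diagonal (fun i => ((ev (μ i) : ℝ) : ℂ)) * M' := by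
    intro x hx M M' μ b1 b2 b4
    show Polynomial.aeval (A x) p = _
    rw [b4, aeval_conj' b1 b2, aeval_diag]
    congr 3
    funext i
    obtain ⟨k, hk⟩ := hspec x hx M M' μ b1 b4 i
    have hmem : μ i ∈ s := by
      rw [hk]
      exact Finset.mem_insert_of_mem (Finset.mem_image_of_mem _ (Finset.mem_univ k))
    rw [hp (μ i) hmem]
  have hev : ∀ x ∈ T, ∀ (M M' : Matrix (Fin n) (Fin n) ℂ) (μ : Fin n → ℝ), M * M' = 1 →
      A x = M * Matrix.diagonal (fun i => (μ i : ℂ)) * M' → ∀ i, μ i ≠ 0 → c ≤ μ i := by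
    intro x hx M M' μ b1 b4 i hi
    obtain ⟨k, hk⟩ := hspec x hx M M' μ b1 b4 i
    rw [hk]
    exact hcb k (by rw [← hk]; exact hi)
  have hPc : ∀ γ x y, R γ x y → Matrix.trace (P x) = Matrix.trace (P y) := by
    intro γ x y hxy
    obtain ⟨J, J', c1, c2, c3⟩ := hconj γ x y hxy
    show Matrix.trace (Polynomial.aeval (A x) p) = Matrix.trace (Polynomial.aeval (A y) p)
    rw [c3, aeval_conj' c1 c2, Matrix.trace_mul_comm, ← Matrix.mul_assoc, c2, Matrix.one_mul]
  have hPd : ∀ i j, DifferentiableOn ℂ (fun x => P x i j) T := diff_aeval hA p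
  have htr : ∀ x ∈ T, Matrix.trace (P x) = Matrix.trace (P x₀) := by
    refine const_of_im hE (f := fun x => Matrix.trace (P x)) (diff_trace hPd) ?_ hPc hx₀
    intro x hx
    obtain ⟨M, M', μ, b1, b2, b3, b4, b5⟩ := diag_A (hh.posDef x hx) (hpsd x hx)
    show (Matrix.trace (P x)).im = 0
    rw [hPdiag x hx M M' μ b1 b2 b4, trace_conj_diag b2, ← Complex.ofReal_sum,
      Complex.ofReal_im]
  refine ⟨(Finset.univ.filter fun i => μ₀ i ≠ 0).card, P, ?_, hPd, ?_, ?_, ?_, ?_, ?_, ?_, ?_,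
    p, fun x => rfl⟩
  · exact (Finset.card_le_univ _).trans (by simp)
  · intro x hx
    obtain ⟨M, M', μ, b1, b2, b3, b4, b5⟩ := diag_A (hh.posDef x hx) (hpsd x hx)
    rw [hPdiag x hx M M' μ b1 b2 b4]
    calc M * Matrix.diagonal (fun i => ((ev (μ i) : ℝ) : ℂ)) * M' *
        (M * Matrix.diagonal (fun i => ((ev (μ i) : ℝ) : ℂ)) * M') =
        M * (Matrix.diagonal (fun i => ((ev (μ i) : ℝ) : ℂ)) * (M' * M) *
          Matrix.diagonal (fun i => ((ev (μ i) : ℝ) : ℂ))) * M' := by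
          simp only [Matrix.mul_assoc]
      _ = _ := by
          rw [b2, Matrix.mul_one, Matrix.diagonal_mul_diagonal]
          congr 3
          funext i
          rw [← Complex.ofReal_mul, ev_sq]
  · intro x hx
    obtain ⟨M, M', μ, b1, b2, b3, b4, b5⟩ := diag_A (hh.posDef x hx) (hpsd x hx)
    rw [hPdiag x hx M M' μ b1 b2 b4, b3]
    have hD : (Matrix.diagonal fun i => ((ev (μ i) : ℝ) : ℂ))ᴴ =
        Matrix.diagonal fun i => ((ev (μ i) : ℝ) : ℂ) := by
      rw [Matrix.diagonal_conjTranspose]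
      congr 1
      funext i
      exact Complex.conj_ofReal _
    have hM : Mᴴ * M'ᴴ = 1 := by rw [← Matrix.conjTranspose_mul, b2, Matrix.conjTranspose_one]
    calc M * Matrix.diagonal (fun i => ((ev (μ i) : ℝ) : ℂ)) * M' * (M * Mᴴ) =
        M * Matrix.diagonal (fun i => ((ev (μ i) : ℝ) : ℂ)) * (M' * M) * Mᴴ := by
          simp only [Matrix.mul_assoc]
      _ = M * (Mᴴ * M'ᴴ) * Matrix.diagonal (fun i => ((ev (μ i) : ℝ) : ℂ)) * Mᴴ := by
          rw [b2, hM, Matrix.mul_one, Matrix.mul_one]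
      _ = _ := by
          rw [Matrix.conjTranspose_mul, Matrix.conjTranspose_mul, hD]
          simp only [Matrix.mul_assoc]
  · intro x hx
    rw [htr x hx, hPdiag x₀ hx₀ M₀ M₀' μ₀ a1 a2 a4, trace_conj_diag a2, Finset.card_filter]
    push_cast
    refine Finset.sum_congr rfl fun i _ => ?_
    unfold ev
    by_cases h0 : μ₀ i = 0
    · simp [h0]
    · simp [h0]
  · intro U τ hArr x hx u v
    have hfx := hinv U τ hArr x hx
    have hhx := hh.inv U τ hArr x hx
    obtain ⟨γ, hγ⟩ := hArr.2.2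
    obtain ⟨hxT, hyT⟩ := hE.mem γ x (τ x) (hγ x hx)
    have h1 := form_mat (A x * h x) (A (τ x) * h (τ x)) (fderiv ℂ τ x) hfx
    have h2 := form_mat (h x) (h (τ x)) (fderiv ℂ τ x) hhx
    set J := Jt (fderiv ℂ τ x) with hJ
    have hJ0 : J.det ≠ 0 := by
      intro h0
      have h3 := congrArg Matrix.det h2
      rw [Matrix.det_mul, Matrix.det_mul, h0, zero_mul, zero_mul] at h3
      exact (hu x hxT).ne_zero h3
    have hJu : IsUnit J.det := isUnit_iff_ne_zero.2 hJ0
    have hJJ : J * J⁻¹ = 1 := Matrix.mul_nonsing_inv _ hJu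
    have hJJ' : J⁻¹ * J = 1 := Matrix.nonsing_inv_mul _ hJu
    have hAx : A x = J * A (τ x) * J⁻¹ := by
      have h3 : A x * h x = (J * A (τ x) * J⁻¹) * h x := by
        rw [h1]
        conv_rhs => rw [h2]
        calc J * (A (τ x) * h (τ x)) * Jᴴ = J * A (τ x) * (J⁻¹ * J) * h (τ x) * Jᴴ := by
              rw [hJJ', Matrix.mul_one]; simp only [Matrix.mul_assoc]
          _ = _ := by simp only [Matrix.mul_assoc]
      calc A x = A x * h x * (h x)⁻¹ := by
            rw [Matrix.mul_assoc, Matrix.mul_nonsing_inv _ (hu x hxT), Matrix.mul_one]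
        _ = _ := by
            rw [h3, Matrix.mul_assoc _ (h x), Matrix.mul_nonsing_inv _ (hu x hxT),
              Matrix.mul_one]
    have hPx : P x = J * P (τ x) * J⁻¹ := by
      show Polynomial.aeval (A x) p = J * Polynomial.aeval (A (τ x)) p * J⁻¹
      rw [hAx, aeval_conj' hJJ hJJ']
    refine mat_form (P x * h x) (P (τ x) * h (τ x)) (fderiv ℂ τ x) ?_ u v
    rw [← hJ, hPx]
    conv_lhs => rw [h2]
    calc J * P (τ x) * J⁻¹ * (J * h (τ x) * Jᴴ) = J * P (τ x) * (J⁻¹ * J) * h (τ x) * Jᴴ := by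
          simp only [Matrix.mul_assoc]
      _ = _ := by rw [hJJ', Matrix.mul_one]; simp only [Matrix.mul_assoc]
  · intro x hx
    obtain ⟨M, M', μ, b1, b2, b3, b4, b5⟩ := diag_A (hh.posDef x hx) (hpsd x hx)
    rw [hPdiag x hx M M' μ b1 b2 b4, b4]
    have hmm : ∀ d e : Fin n → ℂ, M * Matrix.diagonal d * M' * (M * Matrix.diagonal e * M') =
        M * Matrix.diagonal (fun i => d i * e i) * M' := by
      intro d e
      calc M * Matrix.diagonal d * M' * (M * Matrix.diagonal e * M') =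
          M * (Matrix.diagonal d * (M' * M) * Matrix.diagonal e) * M' := by
            simp only [Matrix.mul_assoc]
        _ = _ := by rw [b2, Matrix.mul_one, Matrix.diagonal_mul_diagonal]
    rw [hmm, hmm]
    constructor
    · congr 3
      funext i
      rw [← Complex.ofReal_mul, ev_mul]
    · congr 3
      funext i
      rw [← Complex.ofReal_mul, mul_comm, ev_mul]
  · refine ⟨c ^ n, pow_pos hc n, fun x hx => ?_⟩
    obtain ⟨M, M', μ, b1, b2, b3, b4, b5⟩ := diag_A (hh.posDef x hx) (hpsd x hx)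
    have h1 : A x + (1 - P x) =
        M * Matrix.diagonal (fun i => ((μ i + (1 - ev (μ i)) : ℝ) : ℂ)) * M' := by
      have h2 : (Matrix.diagonal fun i => ((μ i + (1 - ev (μ i)) : ℝ) : ℂ)) =
          (Matrix.diagonal fun i => (μ i : ℂ)) + (1 - Matrix.diagonal fun i =>
            ((ev (μ i) : ℝ) : ℂ)) := by
        ext i j
        by_cases hij : i = j
        · subst hij; simp
        · simp [Matrix.diagonal_apply_ne _ hij, Matrix.one_apply_ne hij]
      rw [hPdiag x hx M M' μ b1 b2 b4, h2, Matrix.mul_add, Matrix.add_mul, Matrix.mul_sub,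
        Matrix.sub_mul, Matrix.mul_one, b1, ← b4]
    rw [h1, det_conj_diag b1, ← Complex.ofReal_prod, Complex.ofReal_re]
    calc c ^ n = ∏ _i : Fin n, c := by simp
      _ ≤ ∏ i, (μ i + (1 - ev (μ i))) := by
          refine Finset.prod_le_prod (fun _ _ => hc.le) fun i _ => ?_
          by_cases h0 : μ i = 0
          · simp [ev, h0, hc1]
          · have := hev x hx M M' μ b1 b4 i h0
            simp [ev, h0, this]
  · refine ⟨c, hc, fun x hx => ?_⟩
    obtain ⟨M, M', μ, b1, b2, b3, b4, b5⟩ := diag_A (hh.posDef x hx) (hpsd x hx)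
    have h1 : ∀ d : Fin n → ℂ, M * Matrix.diagonal d * M' * h x = M * Matrix.diagonal d * Mᴴ := by
      intro d
      rw [b3]
      calc M * Matrix.diagonal d * M' * (M * Mᴴ) = M * Matrix.diagonal d * (M' * M) * Mᴴ := by
            simp only [Matrix.mul_assoc]
        _ = _ := by rw [b2, Matrix.mul_one]
    have h2 : A x * h x - (c : ℂ) • (P x * h x) =
        M * Matrix.diagonal (fun i => ((μ i - c * ev (μ i) : ℝ) : ℂ)) * Mᴴ := by
      rw [hPdiag x hx M M' μ b1 b2 b4]
      conv_lhs => rw [b4]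
      rw [h1, h1, ← Matrix.smul_mul, ← Matrix.mul_smul, ← Matrix.sub_mul, ← Matrix.mul_sub]
      congr 2
      ext i j
      by_cases hij : i = j
      · subst hij; simp
      · simp [Matrix.diagonal_apply_ne _ hij]
    rw [h2]
    refine Matrix.PosSemidef.mul_mul_conjTranspose_same (Matrix.PosSemidef.diagonal ?_) M
    intro i
    have h3 : (0 : ℝ) ≤ μ i - c * ev (μ i) := by
      by_cases h0 : μ i = 0
      · simp [ev, h0]
      · have := hev x hx M M' μ b1 b4 i h0
        simp [ev, h0, this]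
    show (0 : ℂ) ≤ ((μ i - c * ev (μ i) : ℝ) : ℂ)
    exact_mod_cast h3

end Pool.Agent.Helper45.RBC
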