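import Pool.Agent.Helper45.RBC.RKM
import Pool.Agent.Helper15.RBC.RPOST

/-! # RBC: assembly of the main theorem from its parts -/

open Complex Metric Set Filter Topology MeasureTheory
open scoped ContDiff ComplexConjugate ComplexOrder Manifold Matrix

namespace Pool.Agent.Helper45.RBC

open Pool.Agent.Helper95.Lin Pool.Agent.Helper16.Abund Pool.Agent.Helper92.Orb
  Pool.Agent.Helper10.SP Pool.Agent.Helper95.RK Pool.Agent.Helper57.HS
  Pool.Agent.Helper15.HS Pool.Agent.Helper10.HS Pool.Agent.Helper15.GS Pool.Agent.Helper57.RBC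
  Pool.Agent.Helper10.RBC Pool.Agent.Helper15.RK Pool.Agent.Helper10.RK Pool.Agent.Helper15.RBC

universe u v

/-- RPO2. The part after the projector, with the metric `Q` and `P Q = P h`. -/
def S_RPO2 : Prop := ∀ {n : ℕ}, 0 < n → ∀ (T : Set (Cn n)) {G : Type u} [Group G]
  (R : G → Cn n → Cn n → Prop) (H h : Cn n → Matrix (Fin n) (Fin n) ℂ), RDat T R H h →
  ∀ (k : ℕ) (P : Cn n → Matrix (Fin n) (Fin n) ℂ), k ≤ n → ParG k T R h P →
  (k < n ∧ ∃ Q, KEt T R Q ∧ ContDiffOn ℝ ∞ (ld Q) T ∧ CorankK k (ld Q) T ∧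
    (∀ x ∈ T, rho Q x = Q x - P x * h x) ∧ ∀ x ∈ T, P x * Q x = P x * h x) ∨
  (CHF h T ∧ ∀ x ∈ T, ∀ i j k l, crv h x i j k l = 0)

theorem rpo2 (hRB4 : S_RB4.{u}) (hRB5 : S_RB5.{u}) (hRBO : S_RBO.{u}) (hGAL : S_GAL)
    (hRPOST : S_RPOSTE.{u}) (hLMF : S_LMF) (hDETI : S_DETI.{u}) : S_RPO2.{u} := by
  intro n hn T G _ R H h hD k P hk hP
  have hTo : IsOpen T := hD.ket.et.isOpen
  rcases hRPOST hn T R H h hD k P hk hP with ⟨hlt, -⟩ | hfl
  · left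
    obtain ⟨Q, hQ⟩ := hRB4 hn T R H h hD k P hP
    have hld : ContDiffOn ℝ ∞ (ld Q) T := by
      obtain ⟨d1, d2, -⟩ := hDETI T R Q hQ.1
      exact d2.log fun x hx => (d1 x hx).2.1.ne'
    have hr : ∀ x ∈ T, rho Q x = Q x - P x * h x := by
      intro x hx
      have h1 := hQ.2 x hx
      rw [h1]
      simp
    have hlev : ∀ x ∈ T, ∀ e, ((lev (ld Q) x e : ℝ) : ℂ) = hermi (Q x - P x * h x) e e := by
      intro x hx e
      have hL : LM (ld Q) x = Q x - P x * h x := hr x hx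
      rw [(hLMF T hTo (ld Q) hld).2.2.1 x hx e, hL]
    have hb := fun x hx => (hRB5 T R H h hD k P hP Q hQ x hx).1
    refine ⟨hlt, Q, hQ.1, hld, fun x hx => ?_, hr, hRBO T R H h hD k P hP Q hQ hb⟩
    obtain ⟨hpsd, V, hV1, hV2⟩ := (hGAL k (h x) (Q x) (P x) (hD.her.posDef x hx)
      (hQ.1.posDef x hx) (hP.proj x hx) (hP.herm x hx) (hP.tr x hx)).2 (hb x hx)
    refine ⟨fun e => ?_, V, hV1, fun e => ?_⟩
    · have h1 := congrArg Complex.re (hlev x hx e)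
      rw [Complex.ofReal_re] at h1
      rw [h1]
      exact hermi_re_nonneg hpsd e
    · rw [← hV2 e, ← hlev x hx e]
      exact Complex.ofReal_eq_zero.symm
  · exact Or.inr hfl

theorem mainr (hRCOR : S_RCOR.{u}) (hRPO2 : S_RPO2.{u}) (hHERR : S_HERR.{u, v})
    (hKAHM : S_KAHM.{u, v}) (hKET : S_KETH.{u, v}) (hUNI : S_UNIH.{u, v})
    (hPUSH : S_PUSHV.{u, v}) (hRKM : S_RKM.{u, v}) (hFZ : S_FOLZ.{u, v}) (hFLD : S_FLD.{u, v})
    (hFLF : S_FLF.{u, v}) (hFLTM : S_FLTM.{u, v}) (hFR : S_FRONT.{u, v})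
    (hM : S_MAINRK.{u, v}) : S_MAINR.{u, v} := by
  intro n G M _ _ _ _ _ _ _ om q hD hq hqi hneg
  rcases Nat.eq_zero_or_pos n with hn | hn
  · subst hn
    exact orb_zero
  obtain ⟨T, E, hE, hC⟩ := hUNI hn hD
  obtain ⟨hK, hpm⟩ := hKET hD T E hE hC
  obtain ⟨hher, hrbc⟩ := hHERR hD hq hqi hneg T E hE hC
  have hRD : RDat T (RelT (G := G) T E) (pm n om E) (pm n q E) := ⟨hK, hher, hrbc⟩
  obtain ⟨k, P, hk, hP⟩ := hRCOR hn T _ _ _ hRD
  rcases hRPO2 hn T _ _ _ hRD k P hk hP with ⟨hlt, Q, hQ, hld, hcor, hrho, hPQ⟩ | ⟨hchf, hflat⟩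
  · obtain ⟨v, hv, hvinv, hvE, hrank⟩ := hPUSH hD T E hE hC Q hQ
    have hr := hrank k hcor
    have hneg : GNeg n M q v := hRKM hD hq hqi T E hE hC v hv hvinv Q P hQ.posDef hld hvE hrho
      hPQ hP.proj hP.herm hP.null
    obtain ⟨b, rfl⟩ : ∃ b, n = b + k := ⟨n - k, by omega⟩
    have hDK : DataK b k G M om v := ⟨hD.act, hD.proper, hD.kah, hD.inv, hv, hvinv, hr⟩
    rcases Nat.eq_zero_or_pos k with hk0 | hk0
    · subst hk0
      exact hM (by omega) hDK (hFZ hDK)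
    · exact hM (by omega) hDK (hFR hk0 hDK ⟨hq, hqi, Or.inl hneg⟩)
  · have hkah := hKAHM hD hq hqi T E hE hC hchf
    have hD' : DataH n G M q := ⟨hD.act, hD.proper, hkah, hqi⟩
    obtain ⟨k, rfl⟩ : ∃ k, n = 0 + k := ⟨n, (zero_add n).symm⟩
    obtain ⟨v, hDK, hF⟩ := hFLD hD' (hFLTM hD' T E hE hC hflat)
    exact hFLF hDK hF

end Pool.Agent.Helper45.RBC
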