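import Pool.Agent.Helper45.RBC.HERR
import Pool.Agent.Helper15.RBC.NULR
import Pool.Agent.Helper15.HS.AsmC

/-! # RBC: assembly of `S_RCOR` -/

open Complex Metric Set Filter Topology MeasureTheory
open scoped ContDiff ComplexConjugate ComplexOrder Manifold Matrix

namespace Pool.Agent.Helper45.RBC

open Pool.Agent.Helper95.Lin Pool.Agent.Helper16.Abund Pool.Agent.Helper92.Orb
  Pool.Agent.Helper10.SP Pool.Agent.Helper95.RK Pool.Agent.Helper57.HS
  Pool.Agent.Helper15.HS Pool.Agent.Helper10.HS Pool.Agent.Helper15.GS Pool.Agent.Helper57.RBC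
  Pool.Agent.Helper10.RBC Pool.Agent.Helper15.RBC
open Pool.Agent.Helper45.HS (SmM)

universe u v

theorem rcor (hPUE : S_PUE.{u}) (hREX : S_REX.{u}) (hVOLP : S_VOLP.{u}) (hRLA : S_RLA.{u})
    (hCHP : S_CHP.{u}) (hNULR : S_NULR) (hRCLO : S_RCLO.{u}) (hRNK : S_RNK.{u})
    (hRVP : S_RVP.{u}) (hKAPI : S_KAPI.{u}) (hRHOI : S_RHOI.{u}) : S_RCOR.{u} := by
  intro n hn T G _ R H h hD
  have hK := hD.ket
  have hh := hD.her
  have hTo : IsOpen T := hK.et.isOpen
  obtain ⟨κ, hκ⟩ := hPUE T R hK.et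
  obtain ⟨s, S, N, φ, H', ε, Q, A, hL⟩ := hRLA hn T R H h hD κ hκ
  obtain ⟨r, P, hr, p1, p2, p3, p4, p5, p6, p7, ⟨c, hc, p8⟩, -⟩ :=
    hCHP T R hK.et h A hh hL.holo hL.psd hL.inv
  obtain ⟨α, hα, p7⟩ := p7
  -- the torsion vanishes in the direction of `P`
  have htor : ∀ x ∈ T, ∀ m i p, ∑ k, P x m k * (Gam h k x i p - Gam h i x k p) = 0 := by
    intro x hx m i p
    set Z : Matrix (Fin n) (Fin n) ℂ := A x + (1 - P x) with hZ
    have hdet : IsUnit Z.det := by
      rw [isUnit_iff_ne_zero]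
      intro h0
      have := p7 x hx
      rw [← hZ, h0] at this
      simp at this
      linarith
    have hZP : Z * P x = A x := by
      rw [hZ, Matrix.add_mul, Matrix.sub_mul, Matrix.one_mul, p2 x hx, sub_self, add_zero]
      exact (p6 x hx).2
    have hP : P x = Z⁻¹ * A x := by
      rw [← hZP, ← Matrix.mul_assoc, Matrix.nonsing_inv_mul _ hdet, Matrix.one_mul]
    rw [hP]
    simp only [Matrix.mul_apply, Finset.sum_mul]
    rw [Finset.sum_comm]
    refine Finset.sum_eq_zero fun q _ => ?_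
    have h1 := hL.tor x hx q i p
    calc ∑ k, Z⁻¹ m q * A x q k * (Gam h k x i p - Gam h i x k p)
        = Z⁻¹ m q * ∑ k, A x q k * (Gam h k x i p - Gam h i x k p) := by
          rw [Finset.mul_sum]
          exact Finset.sum_congr rfl fun k _ => by ring
      _ = 0 := by rw [h1, mul_zero]
  have hnul := hNULR T hTo h P A hh.posDef hh.smooth hD.rbc p1 p2 p3 htor
    (fun x hx => (p6 x hx).2) hL.herm (fun x hx => ⟨c, hc, p8 x hx⟩) hL.crv
  have hchf : CHF (fun x => P x * h x) T :=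
    hRCLO T R H h hD P p1 p2 p3 p5 fun x hx => (hnul x hx).1
  -- the limit data
  have hepsnn : ∀ j, 0 ≤ ε j := fun j => (hL.seq.eps j).le
  have hone : Tendsto (fun j : ℕ => 1 / ((j : ℝ) + 1)) atTop (𝓝 0) :=
    tendsto_one_div_add_atTop_nhds_zero_nat
  have hLA : LimA r T R κ H h P A ε N φ H' Q := by
    refine ⟨p2, p3, p4, fun i j => (p1 i j).continuousOn, fun i j => (hL.holo i j).continuousOn,
      p6, hL.psd, ⟨α, hα, p7⟩, ⟨s, fun x hx => ?_⟩, hL.seq.eps, ?_, ?_, hL.seq.fam, hL.seq.tke,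
      hL.bB, hL.conv⟩
    · rw [hL.tr x hx]; simp
    · exact squeeze_zero hepsnn hL.seq.eps_le hone
    · exact squeeze_zero (fun j => mul_nonneg (hepsnn j) (hL.seq.fam j).nn) hL.seq.epsN hone
  obtain ⟨-, k, p, hk, hp, hV⟩ := hVOLP T R H hK κ hκ (hREX T R H h hD)
  have hkr : k ≤ r := hRNK T R H h hD κ hκ k p hp hV r P A ε N φ H' Q hLA
  have hvol : 0 < ∫ x in T, κ x * (rho h x + P x * h x).det.re :=
    hRVP T R H h hD κ hκ k p hp hV r P A ε N φ H' Q hLA hkr hchf p5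
  refine ⟨r, P, hr, p1, p2, p4, p3, p5, hchf, fun x hx => (hnul x hx).1,
    fun x hx => (hnul x hx).2.2, fun κ' hκ' => ?_⟩
  obtain ⟨h1, h2, -⟩ := hRHOI T R h hK.et hh
  rw [hKAPI T R hK.et κ' κ hκ' hκ (fun x => (rho h x + P x * h x).det.re) ?_ ?_]
  · exact hvol
  · have h3 : SmM (fun x => rho h x + P x * h x) T :=
      SmM.add (X := rho h) h1.smooth hchf.smooth
    exact Complex.continuous_re.comp_continuousOn h3.det.continuousOn
  · exact fun U τ hA x hx => det_density (invH_add h2 p5) U τ hA x hx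

end Pool.Agent.Helper45.RBC
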