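import Pool.Agent.Helper45.RBC.GoalsM

/-! # HERR -/

open Complex Metric Set Filter Topology MeasureTheory
open scoped ContDiff ComplexConjugate ComplexOrder Manifold Matrix MatrixOrder

namespace Pool.Agent.Helper45.RBC

open Pool.Agent.Helper95.Lin Pool.Agent.Helper16.Abund Pool.Agent.Helper92.Orb
  Pool.Agent.Helper10.SP Pool.Agent.Helper95.RK Pool.Agent.Helper57.HS
  Pool.Agent.Helper15.HS Pool.Agent.Helper10.HS Pool.Agent.Helper15.GS Pool.Agent.Helper57.RBC
open Pool.Agent.Helper45.Stmt (NonposRBC)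

universe u v

theorem curv_eq {n : ℕ} (H : Cn n → Matrix (Fin n) (Fin n) ℂ) (x : Cn n) (i j k l : Fin n) :
    Pool.Agent.Helper10.Stmt.curv H x i j k l = crv H x i j k l := by
  unfold Pool.Agent.Helper10.Stmt.curv crv
  congr 1
  rw [Matrix.mul_apply]
  simp only [Matrix.mul_apply, Finset.sum_mul]
  rw [Finset.sum_comm]
  rfl

theorem rbc_of {n : ℕ} {M : Type v} [TopologicalSpace M] [ChartedSpace (Fin n → ℂ) M]
    {q : M → Matrix (Fin n) (Fin n) ℂ} (h : NonposRBC n M q) {T : Set (Cn n)} {E : Cn n → M}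
    (hE : Par n E T) : RBC (pm n q E) T := by
  intro x hx K hK
  obtain ⟨B, hB⟩ : ∃ B : Matrix (Fin n) (Fin n) ℂ, K = Bᴴ * B := by
    exact CStarAlgebra.nonneg_iff_eq_star_mul_self.mp hK.nonneg
  subst hB
  have h1 := h T E hE x hx n (fun a => B a)
  refine le_of_eq_of_le (congrArg Complex.re ?_) h1
  unfold crvP
  simp only [Matrix.mul_apply, Matrix.conjTranspose_apply, Finset.sum_mul, Finset.mul_sum]
  have hsw : ∀ f : Fin n → Fin n → Fin n → Fin n → Fin n → Fin n → ℂ,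
      (∑ i, ∑ j, ∑ k, ∑ l, ∑ b, ∑ a, f i j k l a b) =
      ∑ a, ∑ b, ∑ i, ∑ j, ∑ k, ∑ l, f i j k l a b := by
    intro f
    calc (∑ i, ∑ j, ∑ k, ∑ l, ∑ b, ∑ a, f i j k l a b)
        = ∑ i, ∑ j, ∑ k, ∑ l, ∑ a, ∑ b, f i j k l a b := by
          refine Finset.sum_congr rfl fun i _ => Finset.sum_congr rfl fun j _ =>
            Finset.sum_congr rfl fun k _ => Finset.sum_congr rfl fun l _ => Finset.sum_comm
      _ = ∑ i, ∑ j, ∑ k, ∑ a, ∑ l, ∑ b, f i j k l a b := by
          refine Finset.sum_congr rfl fun i _ => Finset.sum_congr rfl fun j _ =>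
            Finset.sum_congr rfl fun k _ => Finset.sum_comm
      _ = ∑ i, ∑ j, ∑ a, ∑ k, ∑ l, ∑ b, f i j k l a b := by
          refine Finset.sum_congr rfl fun i _ => Finset.sum_congr rfl fun j _ => Finset.sum_comm
      _ = ∑ i, ∑ a, ∑ j, ∑ k, ∑ l, ∑ b, f i j k l a b := by
          refine Finset.sum_congr rfl fun i _ => Finset.sum_comm
      _ = ∑ a, ∑ i, ∑ j, ∑ k, ∑ l, ∑ b, f i j k l a b := Finset.sum_comm
      _ = ∑ a, ∑ i, ∑ j, ∑ k, ∑ b, ∑ l, f i j k l a b := by
          refine Finset.sum_congr rfl fun a _ => Finset.sum_congr rfl fun i _ =>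
            Finset.sum_congr rfl fun j _ => Finset.sum_congr rfl fun k _ => Finset.sum_comm
      _ = ∑ a, ∑ i, ∑ j, ∑ b, ∑ k, ∑ l, f i j k l a b := by
          refine Finset.sum_congr rfl fun a _ => Finset.sum_congr rfl fun i _ =>
            Finset.sum_congr rfl fun j _ => Finset.sum_comm
      _ = ∑ a, ∑ i, ∑ b, ∑ j, ∑ k, ∑ l, f i j k l a b := by
          refine Finset.sum_congr rfl fun a _ => Finset.sum_congr rfl fun i _ => Finset.sum_comm
      _ = ∑ a, ∑ b, ∑ i, ∑ j, ∑ k, ∑ l, f i j k l a b := by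
          refine Finset.sum_congr rfl fun a _ => Finset.sum_comm
  rw [hsw]
  refine Finset.sum_congr rfl fun a _ => Finset.sum_congr rfl fun b _ =>
    Finset.sum_congr rfl fun i _ => Finset.sum_congr rfl fun j _ =>
    Finset.sum_congr rfl fun k _ => Finset.sum_congr rfl fun l _ => ?_
  have h2 : Pool.Agent.Helper10.Stmt.curv (Pool.Agent.Helper10.Stmt.pullM n q E) x i j k l =
      crv (pm n q E) x i j k l := curv_eq _ x i j k l
  rw [h2]
  simp only [Complex.star_def]
  ring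

theorem herr (hHERM : S_HERM.{u, v}) : S_HERR.{u, v} := by
  intro n G M _ _ _ _ _ _ _ om q hD hq hqi hneg T E hE hC
  exact ⟨(hHERM hD hq hqi T E hE hC).1, rbc_of hneg hE⟩

end Pool.Agent.Helper45.RBC
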