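import Pool.Agent.Helper57.RBC.AsmE
import Pool.Agent.Helper40.RBC.RVP
import Pool.Agent.Helper10.RBC.Rkn
import Pool.Agent.Helper45.RBC.AsmM
import Pool.Agent.Helper15.GS.Main

/-! # RBC: the main theorem -/

open Complex Metric Set Filter Topology MeasureTheory
open scoped ContDiff ComplexConjugate ComplexOrder Manifold Matrix

namespace Pool.Agent.Helper45.RBC.Asm

open Pool.Agent.Helper95.Lin Pool.Agent.Helper16.Abund Pool.Agent.Helper92.Orb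
  Pool.Agent.Helper10.SP Pool.Agent.Helper95.RK Pool.Agent.Helper57.HS
  Pool.Agent.Helper15.HS Pool.Agent.Helper10.HS Pool.Agent.Helper15.RK
  Pool.Agent.Helper10.SP.Asm Pool.Agent.Helper15.HS.Asm Pool.Agent.Helper15.GS
  Pool.Agent.Helper15.GS.Asm Pool.Agent.Helper57.RBC Pool.Agent.Helper15.RBC
  Pool.Agent.Helper10.RBC Pool.Agent.Helper45.RBC Pool.Agent.Helper57.RBC.Asm
  Pool.Agent.Helper10.RK.Asm

universe u v

theorem t_AYG : S_AYG.{u} := Pool.Agent.Helper57.HS.Asm.t_AYG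

theorem t_RVP : Pool.Agent.Helper10.RBC.S_RVP.{u} :=
  Pool.Agent.Helper40.RBC.rvp t_RDP t_RLV t_RAVL t_MOMG t_RHOI t_NULL0 t_DETI

theorem t_RKN : Pool.Agent.Helper10.RBC.S_RKN := Pool.Agent.Helper10.RBC.rkn t_WIRT t_LMF t_MCAL

theorem t_RKM : S_RKM.{u, v} := rkm t_PARH t_PMH t_WCH t_LMF t_RKN

theorem t_HERR : S_HERR.{u, v} := herr t_HERM

theorem t_RCOR : S_RCOR.{u} := t_RCOR_of t_AYG t_RVP

theorem t_RPO2 : S_RPO2.{u} :=
  rpo2 (t_RB4 t_AYG) t_RB5 t_RBO t_GAL (t_RPOSTE t_AYG) t_LMF t_DETI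

/-- The main theorem RBC. -/
theorem t_MAINR : S_MAINR.{u, v} :=
  mainr t_RCOR t_RPO2 t_HERR t_KAHM t_KETH t_UNIH t_PUSHV t_RKM t_FOLZ t_FLD t_FLF t_FLTM
    t_FRONT tH_MAINRK

end Pool.Agent.Helper45.RBC.Asm
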