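import Pool.Agent.Helper57.RBC.Goals2
import Pool.Agent.Helper15.RBC.GoalsE
import Pool.Agent.Helper45.RBC.CHP
import Pool.Agent.Helper15.GS.GoalsF
import Pool.Agent.Helper45.Stmt.DefsRBC

/-!
# RBC: the link to manifolds and the assembly
-/

open Complex Metric Set Filter Topology MeasureTheory
open scoped ContDiff ComplexConjugate ComplexOrder Manifold Matrix

namespace Pool.Agent.Helper45.RBC

open Pool.Agent.Helper95.Lin Pool.Agent.Helper16.Abund Pool.Agent.Helper92.Orb
  Pool.Agent.Helper10.SP Pool.Agent.Helper95.RK Pool.Agent.Helper57.HS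
  Pool.Agent.Helper15.HS Pool.Agent.Helper10.HS Pool.Agent.Helper15.GS Pool.Agent.Helper57.RBC
open Pool.Agent.Helper45.Stmt (NonposRBC)

universe u v

/-- HERR. The Hermitian metric on the étale relation has nonpositive real bisectional curvature. -/
def S_HERR : Prop := ∀ {n : ℕ} {G : Type u} {M : Type v} [Group G] [MulAction G M]
  [TopologicalSpace M] [T2Space M] [ConnectedSpace M] [ChartedSpace (Fin n → ℂ) M]
  [IsManifold 𝓘(ℂ, Fin n → ℂ) ω M] {om q : M → Matrix (Fin n) (Fin n) ℂ}, DataH n G M om →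
  HermMetric n M q → (∀ γ : G, InvMetric n q (fun y : M => γ • y)) → NonposRBC n M q →
  ∀ (T : Set (Cn n)) (E : Cn n → M), Par n E T →
  (∃ C ⊆ T, IsCompact C ∧ ∀ p : M, ∃ (γ : G), ∃ x ∈ C, γ • p = E x) →
  HerT T (RelT (G := G) T E) (pm n q E) ∧ RBC (pm n q E) T

/-- The main theorem RBC, internal form. -/
def S_MAINR : Prop := ∀ {n : ℕ} {G : Type u} {M : Type v} [Group G] [MulAction G M]
  [TopologicalSpace M] [T2Space M] [ConnectedSpace M] [ChartedSpace (Fin n → ℂ) M]
  [IsManifold 𝓘(ℂ, Fin n → ℂ) ω M] {om q : M → Matrix (Fin n) (Fin n) ℂ}, DataH n G M om →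
  HermMetric n M q → (∀ γ : G, InvMetric n q (fun y : M => γ • y)) → NonposRBC n M q →
  OrbSemiample n G M

/-- RCOR. The projector. -/
def S_RCOR : Prop := ∀ {n : ℕ}, 0 < n → ∀ (T : Set (Cn n)) {G : Type u} [Group G]
  (R : G → Cn n → Cn n → Prop) (H h : Cn n → Matrix (Fin n) (Fin n) ℂ), RDat T R H h →
  ∃ (k : ℕ) (P : Cn n → Matrix (Fin n) (Fin n) ℂ), k ≤ n ∧ ParG k T R h P

end Pool.Agent.Helper45.RBC
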