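import Pool.Agent.Helper45.RBC.HERR
import Pool.Agent.Helper35.RK.TriB
import Pool.Agent.Helper61.GS.HERM
import Pool.Agent.Helper69.HS.PUSHV
import Pool.Agent.Helper8.Abund.FDerivHolo
import Pool.Agent.Helper55.HS.FLTM

/-! # RKM: the kernel condition on the manifold for the given Hermitian metric -/

open Complex Metric Set Filter Topology MeasureTheory
open scoped ContDiff ComplexConjugate ComplexOrder Manifold Matrix

namespace Pool.Agent.Helper45.RBC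

open Pool.Agent.Helper95.Lin Pool.Agent.Helper16.Abund Pool.Agent.Helper92.Orb
  Pool.Agent.Helper10.SP Pool.Agent.Helper95.RK Pool.Agent.Helper57.HS
  Pool.Agent.Helper15.HS Pool.Agent.Helper10.HS Pool.Agent.Helper15.GS Pool.Agent.Helper57.RBC
  Pool.Agent.Helper10.RBC Pool.Agent.Helper15.RK Pool.Agent.Helper10.RK

universe u v

/-- RKM. The kernel condition for the given metric `q`. -/
def S_RKM : Prop := ∀ {n : ℕ} {G : Type u} {M : Type v} [Group G] [MulAction G M]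
  [TopologicalSpace M] [T2Space M] [ConnectedSpace M] [ChartedSpace (Fin n → ℂ) M]
  [IsManifold 𝓘(ℂ, Fin n → ℂ) ω M] {om q : M → Matrix (Fin n) (Fin n) ℂ}, DataH n G M om →
  HermMetric n M q → (∀ γ : G, InvMetric n q (fun y : M => γ • y)) →
  ∀ (T : Set (Cn n)) (E : Cn n → M), Par n E T →
  (∃ C ⊆ T, IsCompact C ∧ ∀ p : M, ∃ (γ : G), ∃ x ∈ C, γ • p = E x) →
  ∀ v : M → ℝ, CanMetric n M v →
  (∀ (γ : G) (x : M), v (γ • x) * ‖jac n (fun y : M => γ • y) x‖ ^ 2 = v x) →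
  ∀ Q P : Cn n → Matrix (Fin n) (Fin n) ℂ, (∀ x ∈ T, (Q x).PosDef) →
  ContDiffOn ℝ ∞ (ld Q) T → (∀ x ∈ T, lpot n v E x = ld Q x) →
  (∀ x ∈ T, rho Q x = Q x - P x * pm n q E x) → (∀ x ∈ T, P x * Q x = P x * pm n q E x) →
  (∀ x ∈ T, P x * P x = P x) → (∀ x ∈ T, P x * pm n q E x = pm n q E x * (P x)ᴴ) →
  (∀ x ∈ T, ∀ i j l m, ∑ p, P x i p * crv (pm n q E) x p j l m = 0) → GNeg n M q v

theorem sqT_smooth {n : ℕ} {V : Set (Cn n)} (hV : IsOpen V)
    {g : Cn n → Matrix (Fin n) (Fin n) ℂ} (hg : ∀ i j, ContDiffOn ℝ ∞ (fun x => g x i j) V)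
    {σ : Cn n → Cn n} (hσ : DifferentiableOn ℂ σ V) : ContDiffOn ℝ ∞ (sqT g σ) V := by
  have hs : ∀ i, ContDiffOn ℝ ∞ (fun x => σ x i) V := fun i =>
    contDiffOn_pi.1 (Pool.Agent.Helper95.Lin.holo_contDiffOn_real hV hσ) i
  have h1 : ContDiffOn ℝ ∞ (fun x => hermi (g x) (σ x) (σ x)) V := by
    unfold hermi
    refine ContDiffOn.sum fun i _ => ContDiffOn.sum fun j _ => ?_
    refine ((hg i j).mul (hs i)).mul ?_
    exact (Complex.conjCLE.contDiff (n := ∞)).comp_contDiffOn (hs j)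
  exact (Complex.reCLM.contDiff (n := ∞)).comp_contDiffOn h1

theorem hermi_ker {n : ℕ} {Q P h : Matrix (Fin n) (Fin n) ℂ} (hQ : Q.PosDef)
    (hPQ : P * Q = P * h) (hPP : P * P = P) (hPH : P * h = h * Pᴴ) (hh : hᴴ = h) (e : Cn n)
    (he : hermi (Q - P * h) e e = 0) : e ᵥ* P = e := by
  have h1 : Q * Pᴴ = P * h := by
    have h2 := congrArg Matrix.conjTranspose hPQ
    rw [Matrix.conjTranspose_mul, Matrix.conjTranspose_mul, hQ.isHermitian.eq, hh] at h2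
    rw [h2, ← hPH]
  have h3 : Q - P * h = (1 - P) * Q * (1 - P)ᴴ := by
    rw [Matrix.conjTranspose_sub, Matrix.conjTranspose_one, Matrix.mul_sub, Matrix.mul_one,
      Matrix.sub_mul, Matrix.one_mul, Matrix.sub_mul, Matrix.mul_assoc, h1, ← Matrix.mul_assoc,
      hPP, hPQ]
    abel
  set w : Cn n := e ᵥ* (1 - P) with hw
  have h4 : hermi (Q - P * h) e e = star (star w) ⬝ᵥ Q *ᵥ star w := by
    rw [h3]
    have h5 : ∀ (A : Matrix (Fin n) (Fin n) ℂ) (u : Cn n), hermi A u u = u ⬝ᵥ A *ᵥ star u := by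
      intro A u
      unfold hermi dotProduct Matrix.mulVec dotProduct
      refine Finset.sum_congr rfl fun i _ => ?_
      rw [Finset.mul_sum]
      refine Finset.sum_congr rfl fun j _ => ?_
      simp only [Pi.star_apply, Complex.star_def]
      ring
    rw [h5, star_star, hw, Matrix.dotProduct_mulVec, Matrix.dotProduct_mulVec,
      ← Matrix.vecMul_vecMul, ← Matrix.vecMul_vecMul, ← Matrix.dotProduct_mulVec]
    rw [show (star (e ᵥ* (1 - P)) : Cn n) = (1 - P)ᴴ *ᵥ star e from Matrix.star_vecMul _ _]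
  have h6 : star w = 0 := by
    by_contra hne
    have h7 := hQ.dotProduct_mulVec_pos hne
    rw [← h4, he] at h7
    exact lt_irrefl _ h7
  have h8 : w = 0 := star_eq_zero.1 h6
  rw [hw, Matrix.vecMul_sub, Matrix.vecMul_one, sub_eq_zero] at h8
  exact h8.symm

theorem rkm (hPAR : S_PARH.{u, v}) (hPM : S_PMH.{u, v}) (hWCH : S_WCH) (hLMF : S_LMF)
    (hRKN : S_RKN) : S_RKM.{u, v} := by
  intro n G M _ _ _ _ _ _ _ om q hD hq hqi T E hE hcov v hv hvi Q P hQ hld hvE hrho hPQ hPP hPH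
    hnull V ψ hψ σ hσ z hz h0 e he
  have hTo : IsOpen T := hE.1.1
  have hVo : IsOpen V := hψ.1.1
  obtain ⟨C, hCT, -, hC⟩ := hcov
  obtain ⟨γ, x, hxC, hγ⟩ := hC (ψ z)
  have hxT := hCT hxC
  have hγ' : γ⁻¹ • E x = ψ z := by rw [← hγ, inv_smul_smul]
  obtain ⟨τ, U, W, hU, hW, hxU, hzW, hUT, hWV, hτ, -, hm, hτx, hdet, hiff⟩ :=
    (hPAR hD).2.2.1 T V E ψ hE hψ γ⁻¹ x hxT z hz hγ'
  have he' : ∀ y ∈ U, γ⁻¹ • E y = ψ (τ y) := fun y hy => (hiff y hy (τ y) (hm hy)).2 rfl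
  have hmV : MapsTo τ U V := fun y hy => hWV (hm hy)
  obtain ⟨m1, m2⟩ := hPM hD q hq hqi
  obtain ⟨e1, e2, e3, e4⟩ := m1 T E hE
  obtain ⟨f1, f2, f3, f4⟩ := m1 V ψ hψ
  have hwch := hWCH.1 V U hVo hU τ hτ hmV
  -- the inverse of the differential
  set K : Cn n → Matrix (Fin n) (Fin n) ℂ := fun y =>
    LinearMap.toMatrix' (fderiv ℂ τ y : Cn n →ₗ[ℂ] Cn n) with hK
  have hKd : ∀ y, (K y).det = (fderiv ℂ τ y).det := fun y => LinearMap.det_toMatrix' _
  have hKv : ∀ y u, K y *ᵥ u = fderiv ℂ τ y u := by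
    intro y u
    rw [hK]
    exact LinearMap.toMatrix'_mulVec _ _
  have hKdiff : ∀ i j, DifferentiableOn ℂ (fun y => K y i j) U := by
    intro i j
    have h1 := Pool.Agent.Helper8.Abund.differentiableOn_fderiv_apply hU hτ (Pi.single j 1)
    have h2 : ∀ y, K y i j = fderiv ℂ τ y (Pi.single j 1) i := by
      intro y
      rw [hK]
      exact LinearMap.toMatrix'_apply _ _ _
    simp only [h2]
    exact differentiableOn_pi.1 h1 i
  have hKu : ∀ y ∈ U, (K y).det ≠ 0 := fun y hy => by rw [hKd]; exact hdet y hy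
  have hcancel : ∀ y ∈ U, ∀ u, fderiv ℂ τ y ((K y)⁻¹ *ᵥ u) = u := by
    intro y hy u
    rw [← hKv, Matrix.mulVec_mulVec, Matrix.mul_nonsing_inv _ (isUnit_iff_ne_zero.2 (hKu y hy)),
      Matrix.one_mulVec]
  set σ' : Cn n → Cn n := fun y => (K y)⁻¹ *ᵥ σ (τ y) with hσ'
  have hσd : DifferentiableOn ℂ σ' U :=
    Pool.Agent.Helper35.RK.mulVec_diff (fun i j => Pool.Agent.Helper35.RK.inv_diff hKdiff hKu i j)
      (hσ.comp hτ hmV)
  set e' : Cn n := (K x)⁻¹ *ᵥ e with he'def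
  -- the densities
  have hl : ∀ w : Cn n, lev (ld Q) x w = lev (lpot n v ψ) z (fderiv ℂ τ x w) := by
    intro w
    have hdd := Pool.Agent.Helper10.Abund.differentiableOn_det_fderiv hU hτ
    obtain ⟨s1, k1⟩ := hWCH.2 U hU (fun y => (fderiv ℂ τ y).det) hdd hdet
    have hvs := hv.2 V ψ hψ
    have s0 : ContDiffOn ℝ ∞ (lpot n v ψ ∘ τ) U :=
      hvs.comp (Pool.Agent.Helper95.Lin.holo_contDiffOn_real hU hτ) hmV
    have h5 : ld Q =ᶠ[𝓝 x] fun y => (lpot n v ψ ∘ τ) y +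
        Real.log (‖(fderiv ℂ τ y).det‖ ^ 2) := by
      filter_upwards [hU.mem_nhds hxU] with y hy
      have hyT := hUT hy
      have hj := Pool.Agent.Helper69.HS.jac_tau hPAR hD hE hψ hU hUT hτ hmV hdet he' hy
      rw [← hvE y hyT]
      show Real.log (v (E y) * ‖jac n E y‖ ^ 2) =
        Real.log (v (ψ (τ y)) * ‖jac n ψ (τ y)‖ ^ 2) + _
      rw [← Real.log_mul]
      · congr 1
        rw [← hvi γ⁻¹ (E y), he' y hy, mul_assoc, mul_assoc, ← mul_pow, ← mul_pow, ← norm_mul,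
          ← norm_mul, hj]
      · exact mul_ne_zero (hv.1 _).ne' (pow_ne_zero _ (norm_ne_zero_iff.2 (hψ.2 _ (hmV hy))))
      · exact pow_ne_zero _ (norm_ne_zero_iff.2 (hdet y hy))
    rw [Pool.Agent.Helper86.SP.lev_congr h5, Pool.Agent.Helper86.SP.lev_add hU s0 s1 hxU,
      (k1 x hxU).1, (hwch.2 (lpot n v ψ) hvs x hxU).1 w, add_zero, hτx]
  -- the squares of the lengths
  have hsq : ∀ y ∈ U, sqT (pm n q E) σ' y = (sqn n q ψ σ ∘ τ) y := by
    intro y hy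
    have h1 : pm n q E y = pm n q (ψ ∘ τ) y := by
      have h2 := e4 γ⁻¹ y (hUT hy)
      rw [← h2]
      have h3 : (fun y => γ⁻¹ • E y) =ᶠ[𝓝 y] ψ ∘ τ := by
        filter_upwards [hU.mem_nhds hy] with w hw
        exact he' w hw
      exact Pool.Agent.Helper55.HS.pm_congr q h3
    unfold sqT
    rw [h1, m2 V U ψ τ hψ hU hτ hmV hdet y hy, hσ', hcancel y hy, f3 _ (hmV hy)]
    rfl
  have hsl : lev (sqT (pm n q E) σ') x e' = lev (sqn n q ψ σ) z e := by
    have h1 : sqT (pm n q E) σ' =ᶠ[𝓝 x] sqn n q ψ σ ∘ τ := by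
      filter_upwards [hU.mem_nhds hxU] with y hy
      exact hsq y hy
    have h2 : ContDiffOn ℝ ∞ (sqn n q ψ σ) V := by
      refine (sqT_smooth hVo f1 hσ).congr fun y hy => ?_
      unfold sqn sqT
      rw [f3 y hy]
    rw [Pool.Agent.Helper86.SP.lev_congr h1, (hwch.2 _ h2 x hxU).1 e', hτx, he'def,
      hcancel x hxU]
  rw [← hsl]
  have hker : ∀ w : Cn n, lev (ld Q) x w = 0 → w ᵥ* P x = w := by
    intro w hw
    have hL : LM (ld Q) x = Q x - P x * pm n q E x := by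
      have h1 := hrho x hxT
      unfold rho at h1
      exact h1
    have h2 := (hLMF T hTo (ld Q) hld).2.2.1 x hxT w
    rw [hL, hw, Complex.ofReal_zero] at h2
    exact hermi_ker (hQ x hxT) (hPQ x hxT) (hPP x hxT) (hPH x hxT)
      (e2 x hxT).isHermitian.eq w h2.symm
  have hσx : σ' x = (K x)⁻¹ *ᵥ σ z := by
    show (K x)⁻¹ *ᵥ σ (τ x) = (K x)⁻¹ *ᵥ σ z
    rw [hτx]
  refine hRKN U hU (pm n q E) P (fun y hy => e2 y (hUT hy)) (fun i j => (e1 i j).mono hUT)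
    (fun y hy => hnull y (hUT hy)) σ' hσd x hxU (hker _ ?_) e'
  rw [hl, hσx, hcancel x hxU]
  exact h0

end Pool.Agent.Helper45.RBC
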